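import Mathlib
import Pool.Agent.MP_04a200_co.N4.Main

set_option autoImplicit false

namespace Pool.Agent.Results.MP_04a200_co.DimFour

open Pool.Agent.MP_04a200_co

/-- No polytope with many vertices whose quotient by a simplex face is a neighborly 4-polytope on
all the other vertices is circumscribable. With the empty face this is the whole case of
dimension four. -/
theorem result : ∃ N : ℕ, ∀ (d : ℕ) (V σ : Finset (E d)), σ.card + 4 = d →
    NeighborlyOver V σ → d + N ≤ V.card → ¬ Circumscribable V :=
  N4.quot4

end Pool.Agent.Results.MP_04a200_co.DimFour
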