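import Mathlib
import Pool.Agent.MP_04a200_co.GaleBase

set_option autoImplicit false

open Classical

namespace Pool.Agent.Results.MP_04a200_co.GaleSewn

open Pool.Agent.MP_04a200_co

/-- No Gale sewn polytope of dimension `d` with at least `d + 9` vertices is circumscribable. -/
theorem result (d n : ℕ) (A : Fin n → E d) (h : GaleLifted d n A) (hn : d + 9 ≤ n) :
    ¬ Circumscribable (Finset.univ.image A) :=
  gale_not_circ h hn

end Pool.Agent.Results.MP_04a200_co.GaleSewn
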